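import Pool.Agent.Helper15.CT.One

/-!
# Balanced community modulated recursive trees: no test between any two parameters in `(7/16, 1/2]`

The library result `NoConsistentEstimator` bounds the total variation distance between the laws of
the rooted unlabelled trees for `q` and for `1/2` by `C (1 - 2 q) ^ 2` for `q ≥ 23/48`.  Here the
bound is extended to all `q > 7/16`, the percolation threshold of the hidden open edges (the
Schur test with the weight `binom (2 a) a / 4 ^ a` has the sharp constant `8 (1 - 2 q)`), and the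
parameter is allowed to depend on the time.  Comparing with models whose parameter is changed only
before, or only after, a large fixed time gives that the laws for any two parameters in
`(7/16, 1/2]` are mutually contiguous, uniformly in the size.
-/

set_option autoImplicit false

namespace Pool.Agent.Results.MP_e7e4ab_pr.MutualContiguity

open Classical Filter Pool.Agent.T6.H1.CT Pool.Agent.Helper15.CT

/-- the event depends only on the rooted unlabelled tree -/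
def Inv {m : ℕ} (S : Set (Cfg m)) : Prop := ∀ ω ω' : Cfg m, RIso ω ω' → (ω ∈ S ↔ ω' ∈ S)

/-- the estimator is a function of the rooted unlabelled tree -/
def Rooted {m : ℕ} (f : Cfg m → ℝ) : Prop := ∀ ω ω' : Cfg m, RIso ω ω' → f ω = f ω'

/-- the estimator is a function of the unrooted unlabelled tree -/
def Unrooted {m : ℕ} (f : Cfg m → ℝ) : Prop := ∀ ω ω' : Cfg m, UIso ω ω' → f ω = f ω'

/-- for the parameter `q` the estimators `f m` converge to `c` in probability -/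
def ConvTo (q : ℝ) (f : (m : ℕ) → Cfg m → ℝ) (c : ℝ) : Prop :=
  ∀ ε : ℝ, 0 < ε → Tendsto (fun m : ℕ => prob q {ω : Cfg m | ε < |f m ω - c|}) atTop (nhds 0)

/-- the mean of a functional -/
noncomputable def PP (θ : ℕ → ℝ) (m : ℕ) (h : Func) : ℝ := ∑ ω : Cfg m, muT θ ω * ev h ω

theorem tvstop {θ : ℕ → ℝ} {Θ : ℝ} (h0 : ∀ k, 0 ≤ θ k) (hΘ : ∀ k, θ k ≤ Θ) (h1 : Θ < 1 / 8)
    (h : Func) (hh : Good h) (T m : ℕ) :
    |PP θ m h - PP (stop θ T) m h| ≤ Θ ^ 2 * (1 - 8 * Θ)⁻¹ * ∑ t ∈ Finset.Ico T m, bd m t := by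
  have hM : 0 ≤ (1 - 8 * Θ)⁻¹ := inv_nonneg.2 (by linarith)
  rcases Nat.lt_or_ge m T with hm | hm
  · rw [Finset.Ico_eq_empty_of_le hm.le, Finset.sum_empty, mul_zero]
    have : PP (stop θ T) m h = PP θ m h := by
      unfold PP
      refine Finset.sum_congr rfl fun ω _ => ?_
      rw [muT_congr (θ := stop θ T) (θ' := θ) (fun k hk => if_pos (hk.trans hm))]
    rw [this, sub_self, abs_zero]
  · unfold PP
    rw [tel_stop tIA hSTP tSNO h hh θ hm]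
    refine (Finset.abs_sum_le_sum_abs _ _).trans ?_
    rw [Finset.mul_sum]
    refine Finset.sum_le_sum fun t ht => ?_
    have h2 := oneT h0 hΘ h1 h hh m t (Finset.mem_Ico.1 ht).2
    rw [abs_mul, abs_neg, abs_of_nonneg (sq_nonneg (θ t))]
    have h3 : θ t ^ 2 ≤ Θ ^ 2 := pow_le_pow_left₀ (h0 t) (hΘ t) 2
    calc θ t ^ 2 * |eff θ (step^[m - 1 - t] h) t|
        ≤ Θ ^ 2 * ((1 - 8 * Θ)⁻¹ * bd m t) :=
          mul_le_mul h3 h2 (abs_nonneg _) (sq_nonneg _)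
      _ = _ := by ring

/-- changing the parameters before the time `T` changes the probabilities by a factor of at most
`4 ^ T` -/
theorem muT_le {θ θ' : ℕ → ℝ} (h0 : ∀ k, 0 ≤ θ k) (h1 : ∀ k, θ k ≤ 1 / 8)
    (h0' : ∀ k, 0 ≤ θ' k) (h1' : ∀ k, θ' k ≤ 1 / 8) (T : ℕ) (hT : ∀ k, T ≤ k → θ k = θ' k)
    {m : ℕ} (ω : Cfg m) : muT θ ω ≤ 4 ^ T * muT θ' ω := by
  have hfac : ∀ k : Fin m, ∏ τ : Bool, (1 + θ k.val * sg τ * sg (ω k τ).2) / (2 * ((k.val : ℝ) + 1))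
      ≤ (if k.val < T then 4 else 1) *
        ∏ τ : Bool, (1 + θ' k.val * sg τ * sg (ω k τ).2) / (2 * ((k.val : ℝ) + 1)) := by
    intro k
    by_cases hk : k.val < T
    · rw [if_pos hk]
      have h2 : (4 : ℝ) = ∏ _τ : Bool, (2 : ℝ) := by simp; norm_num
      rw [h2, ← Finset.prod_mul_distrib]
      refine Finset.prod_le_prod (fun τ _ => ?_) (fun τ _ => ?_)
      · apply div_nonneg _ (by positivity)
        have a1 := h0 k.val
        have a2 := h1 k.val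
        cases τ <;> cases (ω k _).2 <;> simp [sg] <;> linarith
      · rw [← mul_div_assoc]
        apply div_le_div_of_nonneg_right _ (by positivity)
        have a1 := h0 k.val
        have a2 := h1 k.val
        have a3 := h0' k.val
        have a4 := h1' k.val
        cases τ <;> cases (ω k _).2 <;> simp [sg] <;> linarith
    · rw [if_neg hk, one_mul, hT k.val (not_lt.1 hk)]
  have hnn : ∀ k : Fin m, 0 ≤ ∏ τ : Bool,
      (1 + θ k.val * sg τ * sg (ω k τ).2) / (2 * ((k.val : ℝ) + 1)) := by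
    intro k
    refine Finset.prod_nonneg fun τ _ => ?_
    apply div_nonneg _ (by positivity)
    have a1 := h0 k.val
    have a2 := h1 k.val
    cases τ <;> cases (ω k _).2 <;> simp [sg] <;> linarith
  unfold muT
  refine (Finset.prod_le_prod (fun k _ => hnn k) (fun k _ => hfac k)).trans ?_
  rw [Finset.prod_mul_distrib]
  refine mul_le_mul_of_nonneg_right ?_ ?_
  · rw [Finset.prod_ite, Finset.prod_const, Finset.prod_const_one, mul_one]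
    apply pow_le_pow_right₀ (by norm_num)
    have : (Finset.univ.filter fun k : Fin m => k.val < T).card ≤ (Finset.range T).card :=
      Finset.card_le_card_of_injOn (fun k => k.val)
        (fun k hk => by simpa using hk) (fun a _ b _ h => Fin.ext h)
    simpa using this
  · refine Finset.prod_nonneg fun k _ => Finset.prod_nonneg fun τ _ => ?_
    apply div_nonneg _ (by positivity)
    have a3 := h0' k.val
    have a4 := h1' k.val
    cases τ <;> cases (ω k _).2 <;> simp [sg] <;> linarith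

theorem PP_le {θ θ' : ℕ → ℝ} (h0 : ∀ k, 0 ≤ θ k) (h1 : ∀ k, θ k ≤ 1 / 8)
    (h0' : ∀ k, 0 ≤ θ' k) (h1' : ∀ k, θ' k ≤ 1 / 8) (T : ℕ) (hT : ∀ k, T ≤ k → θ k = θ' k)
    (m : ℕ) (h : Func) (hh : Good h) : PP θ m h ≤ 4 ^ T * PP θ' m h := by
  unfold PP
  rw [Finset.mul_sum]
  refine Finset.sum_le_sum fun ω _ => ?_
  rw [← mul_assoc]
  exact mul_le_mul_of_nonneg_right (muT_le h0 h1 h0' h1' T hT ω) (hh.1 _ _ _).1

theorem prob_PP (q : ℝ) {m : ℕ} (S : Set (Cfg m)) (hS' : Inv S) :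
    prob q S = PP (fun _ => 1 - 2 * q) m (hS S) := by
  rw [prob_eq q S hS']
  rfl

theorem prob_nonneg {q : ℝ} (h0 : 0 ≤ q) (h1 : q ≤ 1) {m : ℕ} (S : Set (Cfg m)) :
    0 ≤ prob q S := by
  unfold prob
  refine Finset.sum_nonneg fun ω _ => ?_
  split_ifs
  · exact law_nonneg q h0 h1 ω
  · exact le_rfl

theorem quant : ∃ C : ℝ, ∀ q : ℝ, 7 / 16 < q → q ≤ 1 / 2 → ∀ (m : ℕ) (S : Set (Cfg m)), Inv S →
    |prob q S - prob (1 / 2) S| ≤ C * (1 - 2 * q) ^ 2 / (16 * q - 7) := by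
  obtain ⟨C, hC⟩ := tNUM
  refine ⟨C, fun q hq hq' m S hS' => ?_⟩
  rw [prob_PP q S hS', prob_PP (1 / 2) S hS']
  have h2 := tvstop (θ := fun _ => 1 - 2 * q) (Θ := 1 - 2 * q) (fun _ => by linarith)
    (fun _ => le_rfl) (by linarith) (hS S) (hS_good S) 0 m
  have h3 : stop (fun _ => 1 - 2 * q) 0 = fun _ => 1 - 2 * (1 / 2 : ℝ) := by
    funext k
    unfold stop
    rw [if_neg (Nat.not_lt_zero k)]
    norm_num
  rw [h3] at h2
  refine h2.trans ?_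
  have h4 : 1 - 8 * (1 - 2 * q) = 16 * q - 7 := by ring
  rw [h4, ← Finset.range_eq_Ico]
  have h5 : 0 < 16 * q - 7 := by linarith
  calc (1 - 2 * q) ^ 2 * (16 * q - 7)⁻¹ * ∑ t ∈ Finset.range m, bd m t
      ≤ (1 - 2 * q) ^ 2 * (16 * q - 7)⁻¹ * C :=
        mul_le_mul_of_nonneg_left (hC m) (by positivity)
    _ = C * (1 - 2 * q) ^ 2 / (16 * q - 7) := by
        rw [div_eq_mul_inv]
        ring

theorem tail' (ε : ℝ) (hε : 0 < ε) : ∃ T : ℕ, ∀ m : ℕ, ∑ t ∈ Finset.Ico T m, bd m t ≤ ε := by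
  obtain ⟨T, hT⟩ := tail ε hε
  refine ⟨T, fun m => ?_⟩
  rcases Nat.lt_or_ge m T with hm | hm
  · rw [Finset.Ico_eq_empty_of_le hm.le, Finset.sum_empty]
    exact hε.le
  · exact hT m hm

/-- choice of the time `T` -/
theorem chooseT {Θ : ℝ} (_h0 : 0 ≤ Θ) (h1 : Θ < 1 / 8) (ε : ℝ) (hε : 0 < ε) :
    ∃ T : ℕ, ∀ m : ℕ, Θ ^ 2 * (1 - 8 * Θ)⁻¹ * ∑ t ∈ Finset.Ico T m, bd m t ≤ ε := by
  have hM : 0 < (1 - 8 * Θ)⁻¹ := inv_pos.2 (by linarith)
  obtain ⟨T, hT⟩ := tail' (ε / (Θ ^ 2 * (1 - 8 * Θ)⁻¹ + 1)) (by positivity)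
  refine ⟨T, fun m => ?_⟩
  have h2 : 0 ≤ Θ ^ 2 * (1 - 8 * Θ)⁻¹ := by positivity
  calc Θ ^ 2 * (1 - 8 * Θ)⁻¹ * ∑ t ∈ Finset.Ico T m, bd m t
      ≤ Θ ^ 2 * (1 - 8 * Θ)⁻¹ * (ε / (Θ ^ 2 * (1 - 8 * Θ)⁻¹ + 1)) :=
        mul_le_mul_of_nonneg_left (hT m) h2
    _ ≤ ε := by
        rw [mul_div_assoc', div_le_iff₀ (by positivity)]
        nlinarith

/-- `1/2` dominates `q` -/
theorem ac_from_half {q : ℝ} (hq : 7 / 16 < q) (hq' : q ≤ 1 / 2) (ε : ℝ) (hε : 0 < ε) :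
    ∃ δ : ℝ, 0 < δ ∧ ∀ (m : ℕ) (S : Set (Cfg m)), Inv S → prob (1 / 2) S ≤ δ → prob q S ≤ ε := by
  obtain ⟨T, hT⟩ := chooseT (Θ := 1 - 2 * q) (by linarith) (by linarith) (ε / 2) (by positivity)
  refine ⟨ε / 2 / 4 ^ T, by positivity, fun m S hS' h => ?_⟩
  rw [prob_PP _ S hS'] at h ⊢
  have h2 := tvstop (θ := fun _ => 1 - 2 * q) (Θ := 1 - 2 * q) (fun _ => by linarith)
    (fun _ => le_rfl) (by linarith) (hS S) (hS_good S) T m
  have h3 := (abs_le.1 (h2.trans (hT m))).2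
  have h4 := PP_le (θ := stop (fun _ => 1 - 2 * q) T) (θ' := fun _ => 1 - 2 * (1 / 2 : ℝ))
    (fun k => by unfold stop; split_ifs <;> linarith)
    (fun k => by unfold stop; split_ifs <;> linarith)
    (fun k => by norm_num) (fun k => by norm_num) T
    (fun k hk => by unfold stop; rw [if_neg (not_lt.2 hk)]; norm_num) m (hS S) (hS_good S)
  have h5 : (4 : ℝ) ^ T * PP (fun _ => 1 - 2 * (1 / 2 : ℝ)) m (hS S) ≤ ε / 2 := by
    rw [le_div_iff₀ (by positivity)] at h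
    linarith
  linarith

/-- `q` dominates `1/2` -/
theorem ac_to_half {q : ℝ} (hq : 7 / 16 < q) (hq' : q ≤ 1 / 2) (ε : ℝ) (hε : 0 < ε) :
    ∃ δ : ℝ, 0 < δ ∧ ∀ (m : ℕ) (S : Set (Cfg m)), Inv S → prob q S ≤ δ → prob (1 / 2) S ≤ ε := by
  obtain ⟨T, hT⟩ := chooseT (Θ := 1 - 2 * q) (by linarith) (by linarith) (ε / 2) (by positivity)
  refine ⟨ε / 2 / 4 ^ T, by positivity, fun m S hS' h => ?_⟩
  rw [prob_PP _ S hS'] at h ⊢
  set θ : ℕ → ℝ := fun k => if k < T then 0 else 1 - 2 * q with hθ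
  have h2 := tvstop (θ := θ) (Θ := 1 - 2 * q) (fun k => by simp only [hθ]; split_ifs <;> linarith)
    (fun k => by simp only [hθ]; split_ifs <;> linarith) (by linarith) (hS S) (hS_good S) T m
  have h3 := (abs_le.1 (h2.trans (hT m))).1
  have h6 : stop θ T = fun _ => 1 - 2 * (1 / 2 : ℝ) := by
    funext k
    simp only [stop, hθ]
    split_ifs <;> norm_num
  rw [h6] at h3
  have h4 := PP_le (θ := θ) (θ' := fun _ => 1 - 2 * q)
    (fun k => by simp only [hθ]; split_ifs <;> linarith)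
    (fun k => by simp only [hθ]; split_ifs <;> linarith)
    (fun k => by linarith) (fun k => by linarith) T
    (fun k hk => by simp only [hθ]; rw [if_neg (not_lt.2 hk)]) m (hS S) (hS_good S)
  have h5 : (4 : ℝ) ^ T * PP (fun _ => 1 - 2 * q) m (hS S) ≤ ε / 2 := by
    rw [le_div_iff₀ (by positivity)] at h
    linarith
  linarith

theorem contig {q₀ q₁ : ℝ} (h0 : 7 / 16 < q₀) (h0' : q₀ ≤ 1 / 2) (h1 : 7 / 16 < q₁)
    (h1' : q₁ ≤ 1 / 2) (ε : ℝ) (hε : 0 < ε) :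
    ∃ δ : ℝ, 0 < δ ∧ ∀ (m : ℕ) (S : Set (Cfg m)), Inv S → prob q₀ S ≤ δ → prob q₁ S ≤ ε := by
  obtain ⟨δ, hδ, h2⟩ := ac_from_half h1 h1' ε hε
  obtain ⟨δ', hδ', h3⟩ := ac_to_half h0 h0' δ hδ
  exact ⟨δ', hδ', fun m S hS' h => h2 m S hS' (h3 m S hS' h)⟩

theorem rooted_inv {m : ℕ} {f : Cfg m → ℝ} (hf : Rooted f) (P : ℝ → Prop) :
    Inv {ω : Cfg m | P (f ω)} := by
  intro ω ω' h
  simp only [Set.mem_ofPred_eq, hf ω ω' h]

theorem twopoint {q₀ q₁ : ℝ} (h0 : 7 / 16 < q₀) (h0' : q₀ ≤ 1 / 2) (h1 : 7 / 16 < q₁)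
    (h1' : q₁ ≤ 1 / 2) :
    ∃ c : ℝ, 0 < c ∧ ∀ (m : ℕ) (f : Cfg m → ℝ), Rooted f →
      c ≤ prob q₀ {ω : Cfg m | |q₀ - q₁| / 2 ≤ |f ω - q₀|} +
        prob q₁ {ω : Cfg m | |q₀ - q₁| / 2 ≤ |f ω - q₁|} := by
  obtain ⟨δ, hδ, h⟩ := contig h0 h0' h1 h1' (1 / 2) (by norm_num)
  refine ⟨min δ (1 / 2), by positivity, fun m f hf => ?_⟩
  have n0 := prob_nonneg (q := q₀) (by linarith) (by linarith)
    {ω : Cfg m | |q₀ - q₁| / 2 ≤ |f ω - q₀|}
  have n1 := prob_nonneg (q := q₁) (by linarith) (by linarith)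
    {ω : Cfg m | |q₀ - q₁| / 2 ≤ |f ω - q₁|}
  rcases le_or_gt (prob q₀ {ω : Cfg m | |q₀ - q₁| / 2 ≤ |f ω - q₀|}) δ with hc | hc
  · have h2 := h m _ (rooted_inv hf fun y => |q₀ - q₁| / 2 ≤ |y - q₀|) hc
    have hsub : {ω : Cfg m | |q₀ - q₁| / 2 ≤ |f ω - q₀|}ᶜ ⊆
        {ω : Cfg m | |q₀ - q₁| / 2 ≤ |f ω - q₁|} := by
      intro ω hω
      simp only [Set.mem_compl_iff, Set.mem_ofPred_eq, not_le] at hω ⊢
      have : |q₀ - q₁| ≤ |f ω - q₁| + |f ω - q₀| := by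
        have e : q₀ - q₁ = (f ω - q₁) - (f ω - q₀) := by ring
        rw [e]
        exact abs_sub _ _
      linarith
    have h3 := prob_mono q₁ (by linarith) (by linarith) hsub
    rw [prob_compl] at h3
    have := min_le_right δ (1 / 2)
    linarith
  · have := min_le_left δ (1 / 2)
    linarith

theorem not_two {q₀ q₁ : ℝ} (h0 : 7 / 16 < q₀) (h0' : q₀ ≤ 1 / 2) (h1 : 7 / 16 < q₁)
    (h1' : q₁ ≤ 1 / 2) (hne : q₀ ≠ q₁) :
    ¬ ∃ f : (m : ℕ) → Cfg m → ℝ, (∀ m, Rooted (f m)) ∧ ConvTo q₀ f q₀ ∧ ConvTo q₁ f q₁ := by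
  rintro ⟨f, hf, c0, c1⟩
  obtain ⟨c, hc, h⟩ := twopoint h0 h0' h1 h1'
  have hd : 0 < |q₀ - q₁| / 4 := by
    have : 0 < |q₀ - q₁| := abs_pos.2 (sub_ne_zero.2 hne)
    positivity
  have e0 := c0 (|q₀ - q₁| / 4) hd
  have e1 := c1 (|q₀ - q₁| / 4) hd
  have e3 := (e0.eventually (gt_mem_nhds (show (0 : ℝ) < c / 2 by positivity))).and
    (e1.eventually (gt_mem_nhds (show (0 : ℝ) < c / 2 by positivity)))
  obtain ⟨m, hm1, hm2⟩ := e3.exists
  have h2 := h m (f m) (hf m)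
  have m0 : prob q₀ {ω : Cfg m | |q₀ - q₁| / 2 ≤ |f m ω - q₀|} ≤
      prob q₀ {ω : Cfg m | |q₀ - q₁| / 4 < |f m ω - q₀|} :=
    prob_mono q₀ (by linarith) (by linarith) (fun ω hω => by
      have : |q₀ - q₁| / 2 ≤ |f m ω - q₀| := hω
      change |q₀ - q₁| / 4 < |f m ω - q₀|
      linarith)
  have m1 : prob q₁ {ω : Cfg m | |q₀ - q₁| / 2 ≤ |f m ω - q₁|} ≤
      prob q₁ {ω : Cfg m | |q₀ - q₁| / 4 < |f m ω - q₁|} :=
    prob_mono q₁ (by linarith) (by linarith) (fun ω hω => by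
      have : |q₀ - q₁| / 2 ≤ |f m ω - q₁| := hω
      change |q₀ - q₁| / 4 < |f m ω - q₁|
      linarith)
  linarith

theorem mse_ge {q : ℝ} (h0 : 0 ≤ q) (h1 : q ≤ 1) {m : ℕ} (f : Cfg m → ℝ) {d : ℝ} (hd : 0 ≤ d) :
    d ^ 2 * prob q {ω : Cfg m | d ≤ |f ω - q|} ≤ ∑ ω : Cfg m, law q ω * (f ω - q) ^ 2 := by
  unfold prob
  rw [Finset.mul_sum]
  refine Finset.sum_le_sum fun ω _ => ?_
  have hl := law_nonneg q h0 h1 ω
  split_ifs with h
  · have h2 : d ^ 2 ≤ (f ω - q) ^ 2 := by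
      rw [← sq_abs (f ω - q)]
      exact pow_le_pow_left₀ hd h 2
    rw [mul_comm]
    exact mul_le_mul_of_nonneg_left h2 hl
  · rw [mul_zero]
    positivity

theorem mse {q₀ q₁ : ℝ} (h0 : 7 / 16 < q₀) (h0' : q₀ ≤ 1 / 2) (h1 : 7 / 16 < q₁)
    (h1' : q₁ ≤ 1 / 2) (hne : q₀ ≠ q₁) :
    ∃ c : ℝ, 0 < c ∧ ∀ (m : ℕ) (f : Cfg m → ℝ), Rooted f →
      c ≤ ∑ ω : Cfg m, law q₀ ω * (f ω - q₀) ^ 2 + ∑ ω : Cfg m, law q₁ ω * (f ω - q₁) ^ 2 := by
  obtain ⟨c, hc, h⟩ := twopoint h0 h0' h1 h1'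
  have hd : 0 < |q₀ - q₁| / 2 := by
    have : 0 < |q₀ - q₁| := abs_pos.2 (sub_ne_zero.2 hne)
    positivity
  refine ⟨(|q₀ - q₁| / 2) ^ 2 * c, by positivity, fun m f hf => ?_⟩
  have e0 := mse_ge (q := q₀) (by linarith) (by linarith) f hd.le
  have e1 := mse_ge (q := q₁) (by linarith) (by linarith) f hd.le
  have e2 := mul_le_mul_of_nonneg_left (h m f hf) (sq_nonneg (|q₀ - q₁| / 2))
  linarith

theorem unrooted_rooted {m : ℕ} (f : Cfg m → ℝ) (hf : Unrooted f) : Rooted f :=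
  fun ω ω' h => hf ω ω' (by obtain ⟨φ, _⟩ := h; exact ⟨φ⟩)

theorem result :
    -- (1) the total variation distance to `q = 1/2`, for all `q > 7/16`
    (∃ C : ℝ, ∀ q : ℝ, 7 / 16 < q → q ≤ 1 / 2 → ∀ (m : ℕ) (S : Set (Cfg m)), Inv S →
      |prob q S - prob (1 / 2) S| ≤ C * (1 - 2 * q) ^ 2 / (16 * q - 7)) ∧
    -- (2) mutual contiguity, uniformly in the size
    (∀ q₀ q₁ : ℝ, 7 / 16 < q₀ → q₀ ≤ 1 / 2 → 7 / 16 < q₁ → q₁ ≤ 1 / 2 → ∀ ε : ℝ, 0 < ε →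
      ∃ δ : ℝ, 0 < δ ∧ ∀ (m : ℕ) (S : Set (Cfg m)), Inv S → prob q₀ S ≤ δ → prob q₁ S ≤ ε) ∧
    -- (3) the limit of an estimator does not depend on the parameter
    (∀ q₀ q₁ : ℝ, 7 / 16 < q₀ → q₀ ≤ 1 / 2 → 7 / 16 < q₁ → q₁ ≤ 1 / 2 →
      ∀ f : (m : ℕ) → Cfg m → ℝ, (∀ m, Rooted (f m)) → ∀ c : ℝ, ConvTo q₀ f c → ConvTo q₁ f c) ∧
    -- (4) two-point bound for the error
    (∀ q₀ q₁ : ℝ, 7 / 16 < q₀ → q₀ ≤ 1 / 2 → 7 / 16 < q₁ → q₁ ≤ 1 / 2 →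
      ∃ c : ℝ, 0 < c ∧ ∀ (m : ℕ) (f : Cfg m → ℝ), Rooted f →
        c ≤ prob q₀ {ω : Cfg m | |q₀ - q₁| / 2 ≤ |f ω - q₀|} +
          prob q₁ {ω : Cfg m | |q₀ - q₁| / 2 ≤ |f ω - q₁|}) ∧
    -- (4') two-point bound for the mean squared error
    (∀ q₀ q₁ : ℝ, 7 / 16 < q₀ → q₀ ≤ 1 / 2 → 7 / 16 < q₁ → q₁ ≤ 1 / 2 → q₀ ≠ q₁ →
      ∃ c : ℝ, 0 < c ∧ ∀ (m : ℕ) (f : Cfg m → ℝ), Rooted f →
        c ≤ ∑ ω : Cfg m, law q₀ ω * (f ω - q₀) ^ 2 + ∑ ω : Cfg m, law q₁ ω * (f ω - q₁) ^ 2) ∧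
    -- (5) no estimator is consistent at two different parameters in `(7/16, 1/2]`
    (∀ q₀ q₁ : ℝ, 7 / 16 < q₀ → q₀ ≤ 1 / 2 → 7 / 16 < q₁ → q₁ ≤ 1 / 2 → q₀ ≠ q₁ →
      ¬ ∃ f : (m : ℕ) → Cfg m → ℝ, (∀ m, Rooted (f m)) ∧ ConvTo q₀ f q₀ ∧ ConvTo q₁ f q₁) ∧
    -- (6) functions of the unrooted tree are functions of the rooted tree
    (∀ (m : ℕ) (f : Cfg m → ℝ), Unrooted f → Rooted f) ∧
    -- (7) Q1 and Q2
    (¬ ∃ f : (m : ℕ) → Cfg m → ℝ, (∀ m, Rooted (f m)) ∧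
      ∀ q ∈ Set.Icc (0 : ℝ) (1 / 2), ConvTo q f q) ∧
    (¬ ∃ f : (m : ℕ) → Cfg m → ℝ, (∀ m, Unrooted (f m)) ∧
      ∀ q ∈ Set.Icc (0 : ℝ) (1 / 2), ConvTo q f q) := by
  refine ⟨quant, fun q₀ q₁ a b c d => contig a b c d, ?_, fun q₀ q₁ a b c d => twopoint a b c d,
    fun q₀ q₁ a b c d e => mse a b c d e, fun q₀ q₁ a b c d e => not_two a b c d e, fun m f hf => unrooted_rooted f hf, ?_, ?_⟩
  · intro q₀ q₁ h0 h0' h1 h1' f hf c hc ε hε
    rw [tendsto_order]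
    refine ⟨fun a ha => Eventually.of_forall fun m =>
      ha.trans_le (prob_nonneg (by linarith) (by linarith) _), fun a ha => ?_⟩
    obtain ⟨δ, hδ, h⟩ := contig h0 h0' h1 h1' (a / 2) (by positivity)
    filter_upwards [(hc ε hε).eventually (gt_mem_nhds hδ)] with m hm
    have := h m _ (rooted_inv (hf m) fun y => ε < |y - c|) hm.le
    linarith
  · rintro ⟨f, hf, hc⟩
    refine not_two (q₀ := 15 / 32) (q₁ := 1 / 2) (by norm_num) (by norm_num) (by norm_num)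
      (by norm_num) (by norm_num) ⟨f, hf, hc _ (by norm_num), hc _ (by norm_num)⟩
  · rintro ⟨f, hf, hc⟩
    refine not_two (q₀ := 15 / 32) (q₁ := 1 / 2) (by norm_num) (by norm_num) (by norm_num)
      (by norm_num) (by norm_num) ⟨f, fun m => unrooted_rooted (f m) (hf m), hc _ (by norm_num),
        hc _ (by norm_num)⟩

end Pool.Agent.Results.MP_e7e4ab_pr.MutualContiguity
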